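import Mathlib
import Pool.Agent.X317.Wilf.Mod

/-!
# MP_811154_nt: Wilf's inequality holds for all modular numerical semigroups
-/

set_option autoImplicit false
set_option linter.all false

namespace Pool.Agent.Results.MP_811154_nt.ModularWilf

/-- The modular numerical semigroup `S(a, b, 1) = {x ∈ ℕ : ax mod b ≤ x}`, as a submonoid of `ℕ`. -/
def modular (a b : ℕ) : AddSubmonoid ℕ where
  carrier := {x | a * x % b ≤ x}
  zero_mem' := by
    show a * 0 % b ≤ 0
    rw [mul_zero, Nat.zero_mod]
  add_mem' := by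
    intro x y hx hy
    show a * (x + y) % b ≤ x + y
    have hx' : a * x % b ≤ x := hx
    have hy' : a * y % b ≤ y := hy
    rw [mul_add, Nat.add_mod]
    exact (Nat.mod_le _ _).trans (Nat.add_le_add hx' hy')

/-- `A` is a minimal generating set of the monoid `S`: `A` generates `S` and no proper subset of `A`
generates `S`. -/
def IsMinimalGenerating (S : AddSubmonoid ℕ) (A : Set ℕ) : Prop :=
  AddSubmonoid.closure A = S ∧ ∀ B : Set ℕ, B ⊂ A → AddSubmonoid.closure B ≠ S

theorem modular_eq (a b : ℕ) : modular a b = Pool.Agent.X317.Wilf.modSG a b := rfl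

open Pool.Agent.X317.NSQ Pool.Agent.X317.Wilf

/-- every generating set contains the atoms -/
theorem atoms_sub (S : AddSubmonoid ℕ) (A : Set ℕ) (h : AddSubmonoid.closure A = S) :
    atoms S ⊆ A := by
  have h1 : ∀ y ∈ AddSubmonoid.closure A, y = 0 ∨ ∃ g ∈ A, g ≠ 0 ∧
      ∃ y' ∈ AddSubmonoid.closure A, y = g + y' := by
    intro y hy
    induction hy using AddSubmonoid.closure_induction with
    | mem x hx =>
      by_cases hx0 : x = 0
      · exact Or.inl hx0
      · exact Or.inr ⟨x, hx, hx0, 0, AddSubmonoid.zero_mem _, by omega⟩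
    | zero => exact Or.inl rfl
    | add x y hxc hyc hx hy =>
      rcases hx with rfl | ⟨g, hg, hg0, y', hy', rfl⟩
      · rw [zero_add]
        exact hy
      · exact Or.inr ⟨g, hg, hg0, y' + y, AddSubmonoid.add_mem _ hy' hyc, by omega⟩
  intro z hz
  have hzc : z ∈ AddSubmonoid.closure A := h.symm ▸ hz.1
  rcases h1 z hzc with h2 | ⟨g, hg, hg0, y', hy', hgy⟩
  · exact absurd h2 hz.2.1
  · rcases hz.2.2 g (h ▸ AddSubmonoid.subset_closure hg) y' (h ▸ hy') hgy.symm with h3 | h3
    · exact absurd h3 hg0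
    · rw [hgy, h3, add_zero]
      exact hg

theorem min_iff (S : AddSubmonoid ℕ) (A : Set ℕ) : IsMinimalGenerating S A ↔ A = atoms S := by
  constructor
  · rintro ⟨h1, h2⟩
    have h3 := atoms_sub S A h1
    by_contra h4
    exact h2 _ (HasSubset.Subset.ssubset_of_ne h3 (Ne.symm h4)) (closure_atoms S)
  · rintro rfl
    refine ⟨closure_atoms S, fun B hB h => ?_⟩
    exact hB.2 (atoms_sub S B h)

/-- **Wilf's inequality for modular numerical semigroups.** For all positive integers `a, b` put
`S = S(a, b, 1)`. Then the complement of `S` is finite, `S` has a unique minimal generating set `A`,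
it is finite, the set of the integers not in `S` has a greatest element `F`, and
`e g ≤ (e - 1) (F + 1)` with `e = |A|` and `g = |ℕ \ S|`. -/
theorem result : ∀ a b : ℕ, 0 < a → 0 < b →
    ((modular a b : Set ℕ)ᶜ).Finite ∧
    ∃ (A : Set ℕ) (F : ℤ), (∀ B, IsMinimalGenerating (modular a b) B ↔ B = A) ∧ A.Finite ∧
      IsGreatest {z : ℤ | ¬ ∃ s ∈ modular a b, (s : ℤ) = z} F ∧
      (A.ncard : ℤ) * (((modular a b : Set ℕ)ᶜ).ncard : ℤ) ≤ ((A.ncard : ℤ) - 1) * (F + 1) := by
  intro a b _ hb
  classical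
  rw [modular_eq]
  have hbig : ∀ x, b ≤ x → x ∈ modSG a b := fun x hx => big_mem hb hx
  have hfin : ((modSG a b : Set ℕ)ᶜ).Finite := by
    apply Set.Finite.subset (Set.finite_Iio b)
    intro x hx
    exact gap_lt hb hx
  have hAfin : (atoms (modSG a b)).Finite := by
    apply Set.Finite.subset (Set.finite_Iic b)
    intro x hx
    exact atom_le hb hx
  refine ⟨hfin, atoms (modSG a b), ?_⟩
  by_cases hN : ∃ x, x ∉ modSG a b
  · obtain ⟨x0, hx0⟩ := hN
    obtain ⟨F, hF, hmax⟩ := Finset.exists_max_image ((Finset.range b).filter fun f => f ∉ modSG a b)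
      (fun f => f) ⟨x0, Finset.mem_filter.2 ⟨Finset.mem_range.2 (gap_lt hb hx0), hx0⟩⟩
    rw [Finset.mem_filter] at hF
    have hB : ∀ x, F < x → x ∈ modSG a b := by
      intro x hx
      by_contra h
      have := hmax x (Finset.mem_filter.2 ⟨Finset.mem_range.2 (gap_lt hb h), h⟩)
      omega
    refine ⟨(F : ℤ), fun B => min_iff _ B, hAfin, ⟨?_, ?_⟩, ?_⟩
    · rintro ⟨s, hs, hsF⟩
      have : s = F := by exact_mod_cast hsF
      exact hF.2 (this ▸ hs)
    · intro z hz
      by_contra h
      push Not at h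
      obtain ⟨n, hn⟩ := Int.eq_ofNat_of_zero_le (show 0 ≤ z by omega)
      exact hz ⟨n, hB n (by omega), hn.symm⟩
    · refine wilf_of_type (modSG a b) F hF.2 hB _ ?_
      intro P hP
      have h := type_lt hb hAfin.toFinset P (fun x => by rw [Set.Finite.mem_toFinset]) hP
      rwa [Set.ncard_eq_toFinset_card _ hAfin]
  · push Not at hN
    refine ⟨-1, fun B => min_iff _ B, hAfin, ⟨?_, ?_⟩, ?_⟩
    · rintro ⟨s, hs, hs1⟩
      omega
    · intro z hz
      by_contra h
      push Not at h
      obtain ⟨n, hn⟩ := Int.eq_ofNat_of_zero_le (show 0 ≤ z by omega)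
      exact hz ⟨n, hN n, hn.symm⟩
    · have h1 : ((modSG a b : Set ℕ)ᶜ) = ∅ := by
        rw [Set.compl_empty_iff]
        ext x
        exact ⟨fun _ => trivial, fun _ => hN x⟩
      rw [h1, Set.ncard_empty]
      norm_num

end Pool.Agent.Results.MP_811154_nt.ModularWilf
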